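import Pool.Agent.Lib.MP_eb1ac4_co.Few

namespace Pool.Agent.Results.MP_eb1ac4_co.FewExceptions

theorem result :
    ∀ (k : ℕ) (T : Finset ℕ),
      (∀ n ∈ T, ∃ (m : ℕ) (H : Finset (Finset (Fin m))),
        (∀ e ∈ H, e.card = 3) ∧
        (∀ c : Finset (Fin m) → Bool, ∃ b : Bool, ∃ S : Finset (Fin m),
          S.card = n ∧ ∀ e ⊆ S, e.card = 3 → e ∈ H ∧ c e = b) ∧
        H.card < 2 ^ k * (sInf {N : ℕ | ∀ c : Finset (Fin N) → Bool, ∃ b : Bool,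
          ∃ S : Finset (Fin N), S.card = n ∧ ∀ e ⊆ S, e.card = 3 → c e = b}) ^ 2) →
      T.card ≤ 8 * k + 83 :=
  Pool.Agent.Lib.MP_eb1ac4_co.few

end Pool.Agent.Results.MP_eb1ac4_co.FewExceptions
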