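import Pool.Agent.Lib.MP_eb1ac4_co.Chrom

namespace Pool.Agent.Results.MP_eb1ac4_co.Shift

theorem result :
    ∀ n : ℕ, ∀ m : ℕ, ∀ H : Finset (Finset (Fin m)),
      (∀ e ∈ H, e.card = 3) →
      (∀ c : Finset (Fin m) → Bool, ∃ b : Bool, ∃ S : Finset (Fin m),
          S.card = n + 1 ∧ ∀ e ⊆ S, e.card = 3 → e ∈ H ∧ c e = b) →
      ∀ r : ℕ, r = sInf {N : ℕ | ∀ c : Finset (Fin N) → Bool, ∃ b : Bool, ∃ S : Finset (Fin N),
          S.card = n ∧ ∀ e ⊆ S, e.card = 3 → c e = b} →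
        8 * r ^ 3 ≤ 27 * H.card + 12 * r ^ 2 := by
  rintro n m H h3 hA r rfl
  exact Pool.Agent.Lib.MP_eb1ac4_co.shift h3 hA

end Pool.Agent.Results.MP_eb1ac4_co.Shift
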