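import Pool.Agent.Lib.MP_eb1ac4_co.Twin

namespace Pool.Agent.Results.MP_eb1ac4_co.SqrtLog

theorem result :
    ∀ n : ℕ, 3 ≤ n → ∀ m : ℕ, ∀ H : Finset (Finset (Fin m)),
      (∀ e ∈ H, e.card = 3) →
      (∀ c : Finset (Fin m) → Bool, ∃ b : Bool, ∃ S : Finset (Fin m),
          S.card = n ∧ ∀ e ⊆ S, e.card = 3 → e ∈ H ∧ c e = b) →
      ∀ r : ℕ, r = sInf {N : ℕ | ∀ c : Finset (Fin N) → Bool, ∃ b : Bool, ∃ S : Finset (Fin N),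
          S.card = n ∧ ∀ e ⊆ S, e.card = 3 → c e = b} →
        (r : ℝ) ^ 2 * Real.sqrt (Real.log (r : ℝ)) ≤ 40000 * (H.card : ℝ) := by
  rintro n hn m H h3 hA r rfl
  exact Pool.Agent.Lib.MP_eb1ac4_co.sqrt_log h3 hn hA

end Pool.Agent.Results.MP_eb1ac4_co.SqrtLog
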